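import Pool.Agent.Lib.MP_ab8df0_nt.T.Q5
import Pool.Agent.Lib.MP_ab8df0_nt.P.Q5b

/-! This class contains no solution. -/

set_option maxRecDepth 100000

namespace Pool.Agent.Lib.MP_ab8df0_nt.T.B81

open Pool.Agent.Lib.MP_ab8df0_nt.B Pool.Agent.Lib.MP_ab8df0_nt.C Pool.Agent.Lib.MP_ab8df0_nt.P

def vs : Cs := [([0, 1], 1), ([], 1), ([], 1), ([], 1), 
  ([0, 1], 2),
  ([-2, 2, 4, 0, -1], 6),
  ([9, 0, -27, 0, 9], 1),
  ([-12, 6, 24, -6, -12], 1),
  ([12, -18, 18, 18], 1),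
  ([0, 8, -36, -16, 8], 1),
  ([-4, 4, 16, 4, -4], 1),
  ([-4, 4, 8, 0, -2], 1),
  ([4, -2, -8, 0, 2], 1),
  ([2], 1),
  ([-1, 1, 1], 1),
  ([0, 1], 1),
  ([0, 1, 1], 1),
  ([0, 1, -1, 0, 1], 1)]

def M (t0 : ℤ) (k0 : ℕ) : List Hyp := [
  .disc 1 t0 k0,
  .disc 2 1 1,
  .disc 3 0 0,
  .sqr 3 (.add (.mul (.num 27) (.mul (.var 2) (.sq (.sq (.var 2))))) (.mul (.var 1) (.add (.mul (.num (-45)) (.sq (.sq (.var 2)))) (.mul (.var 1) (.add (.mul (.num 0) (.mul (.var 2) (.sq (.var 2)))) (.mul (.var 1) (.add (.mul (.num 60) (.sq (.var 2))) (.mul (.var 1) (.add (.mul (.num (-60)) (.var 2)) (.mul (.var 1) (.num 20))))))))))),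
  .cls (.add (.add (.add (.mul (.var 11) (.var 2)) (.mul (.var 1) (.var 12))) (.mul (.num 4) (.var 3))) (.add (.mul (.var 6) (.sq (.sq (.var 2)))) (.mul (.var 1) (.add (.mul (.var 7) (.mul (.var 2) (.sq (.var 2)))) (.mul (.var 1) (.add (.mul (.var 8) (.sq (.var 2))) (.mul (.var 1) (.add (.mul (.var 9) (.var 2)) (.mul (.var 1) (.var 10)))))))))) [13, 14, 15, 16, 17]]

def k0 : Cut := ⟨[0], [], [[true, false, false, false, false, false]], [[false, false, true, false, false, false], [false, false, false, false, true, false], [false, true, false, false, false, false], [false, true, false, true, false, false], [false, true, false, false, false, true]], [[true, false, false, false, false, false], [false, false, false, true, false, false], [false, true, false, false, false, false], [false, false, false, true, true, false], [false, false, true, false, false, false], [false, false, false, true, false, true]]⟩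

def A : List AH := [
  ]

theorem auto : (baseOk 3 vs && A.all (AH.ok FDQ5b 3 vs)) = true := by decide +kernel

def r0_0 : Tree := .set 4 [[ce (-1) 264 1 1 0x1], [ce (-1) 264 1 1 0x1]] (.set 5 [[ce (-1) 264 128 1 0xaaaaaaaaaaaaaaaaaaaaaaaaaaaaaaab], [ce (-1) 264 128 1 0xaaaaaaaaaaaaaaaaaaaaaaaaaaaaaaab]] (.set 6 [[], []] (.set 7 [[], []] (.set 8 [[], []] (.set 9 [[], []] (.set 10 [[], []] (.set 11 [[], []] (.set 12 [[], []] (.set 13 [[], []] (.set 14 [[], []] (.set 15 [[], []] (.set 16 [[], []] (.set 17 [[], []] (.piv [13, 14, 15, 16, 17] [[ce 0 264 1 0 0x0], [ce 0 264 1 1 0x1], [ce (-1) 264 1 1 0x1], [ce (-1) 264 1 1 0x1, ce 0 264 5 4 0x97b93], [ce (-1) 264 6 1 0x35, ce 0 264 5 4 0x1255a]] (.disc 18 (.disc 19 (.disc 20 (.split 18 (.split 20 (.contra 21 0 []) (.split 18 (.split 19 (.contra 21 0 []) (.dead 22 23 [[], []] [false, false, false, true, true] [ce (-2) 264 4 1 0xd, ce (-1) 264 5 4 0x5ac38])) (.split 19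 (.dead 22 23 [[], []] [false, false, false, true, true] [ce (-2) 264 1 1 0x1, ce (-1) 264 5 4 0x3be72]) (.contra 21 0 [])))) (.split 20 (.split 18 (.split 19 (.contra 21 0 []) (.dead 22 23 [[], []] [false, false, true, true, true] [ce (-3) 264 1 1 0x1, ce (-1) 264 5 4 0x77d21])) (.split 19 (.dead 22 23 [[], []] [false, false, true, true, true] [ce (-3) 264 1 1 0x1, ce (-1) 264 5 4 0x80439]) (.contra 21 0 []))) (.contra 21 0 []))))))))))))))))))))

theorem r0 : run FDQ5b.ds FDQ5b.es [[], []] vs.length (fullH 3 vs (M 0 0) A) r0_0 = true := by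
  decide +kernel

theorem rn {K : Type} [Field K] [NumberField K] {a : K} {pl : List (Place K)} {ph : List (K →+* ℝ)}
    {w : List (IsDedekindDomain.HeightOneSpectrum (NumberField.RingOfIntegers K))}
    (hP : Pack K FDQ5b a pl ph w) : (((cval a vs 4) ^ 2) - (3 * ((cval a vs 5) ^ 2))) = 1 := by
  have h : ((((cval a vs 4) ^ 2) + (-((((3 : ℤ) : K) * ((cval a vs 5) ^ 2))))) + (-(((1 : ℤ) : K)))) = 0 :=
    hP.rel vs (.add (.add (.sq (.var 4)) (.neg (.mul (.num 3) (.sq (.var 5))))) (.neg (.num 1))) (by decide +kernel)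
  have h0 : cval a vs 0 = a := by simp [cval, vs, ev]
  try rw [h0] at h
  try push_cast at h
  linear_combination h

theorem r0' {K : Type} [Field K] [NumberField K] {a : K} {pl : List (Place K)} {ph : List (K →+* ℝ)}
    {w : List (IsDedekindDomain.HeightOneSpectrum (NumberField.RingOfIntegers K))}
    (hP : Pack K FDQ5b a pl ph w) : (cval a vs 4 * (((((cval a vs 4) ^ 2)) ^ 2) + ((30 * (((cval a vs 4) ^ 2) * ((cval a vs 5) ^ 2))) + (45 * ((((cval a vs 5) ^ 2)) ^ 2))))) = 2 := by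
  have h : ((cval a vs 4 * (((((cval a vs 4) ^ 2)) ^ 2) + ((((30 : ℤ) : K) * (((cval a vs 4) ^ 2) * ((cval a vs 5) ^ 2))) + (((45 : ℤ) : K) * ((((cval a vs 5) ^ 2)) ^ 2))))) + (-(((2 : ℤ) : K)))) = 0 :=
    hP.rel vs (.add (.mul (.var 4) (.add (.sq (.sq (.var 4))) (.add (.mul (.num 30) (.mul (.sq (.var 4)) (.sq (.var 5)))) (.mul (.num 45) (.sq (.sq (.var 5))))))) (.neg (.num 2))) (by decide +kernel)
  have h0 : cval a vs 0 = a := by simp [cval, vs, ev]
  try rw [h0] at h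
  try push_cast at h
  linear_combination h

theorem r1 {K : Type} [Field K] [NumberField K] {a : K} {pl : List (Place K)} {ph : List (K →+* ℝ)}
    {w : List (IsDedekindDomain.HeightOneSpectrum (NumberField.RingOfIntegers K))}
    (hP : Pack K FDQ5b a pl ph w) : (cval a vs 5 * ((5 * ((((cval a vs 4) ^ 2)) ^ 2)) + ((30 * (((cval a vs 4) ^ 2) * ((cval a vs 5) ^ 2))) + (9 * ((((cval a vs 5) ^ 2)) ^ 2))))) = 1 := by
  have h : ((cval a vs 5 * ((((5 : ℤ) : K) * ((((cval a vs 4) ^ 2)) ^ 2)) + ((((30 : ℤ) : K) * (((cval a vs 4) ^ 2) * ((cval a vs 5) ^ 2))) + (((9 : ℤ) : K) * ((((cval a vs 5) ^ 2)) ^ 2))))) + (-(((1 : ℤ) : K)))) = 0 :=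
    hP.rel vs (.add (.mul (.var 5) (.add (.mul (.num 5) (.sq (.sq (.var 4)))) (.add (.mul (.num 30) (.mul (.sq (.var 4)) (.sq (.var 5)))) (.mul (.num 9) (.sq (.sq (.var 5))))))) (.neg (.num 1))) (by decide +kernel)
  have h0 : cval a vs 0 = a := by simp [cval, vs, ev]
  try rw [h0] at h
  try push_cast at h
  linear_combination h

theorem ra0 {K : Type} [Field K] [NumberField K] {a : K} {pl : List (Place K)} {ph : List (K →+* ℝ)}
    {w : List (IsDedekindDomain.HeightOneSpectrum (NumberField.RingOfIntegers K))}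
    (hP : Pack K FDQ5b a pl ph w) : cval a vs 11 = (12 * cval a vs 5) := by
  have h : (cval a vs 11 + (-((((12 : ℤ) : K) * cval a vs 5)))) = 0 :=
    hP.rel vs (.add (.var 11) (.neg (.mul (.num 12) (.var 5)))) (by decide +kernel)
  have h0 : cval a vs 0 = a := by simp [cval, vs, ev]
  try rw [h0] at h
  try push_cast at h
  linear_combination h

theorem ra1 {K : Type} [Field K] [NumberField K] {a : K} {pl : List (Place K)} {ph : List (K →+* ℝ)}
    {w : List (IsDedekindDomain.HeightOneSpectrum (NumberField.RingOfIntegers K))}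
    (hP : Pack K FDQ5b a pl ph w) : cval a vs 12 = (4 * (cval a vs 4 - (3 * cval a vs 5))) := by
  have h : (cval a vs 12 + (-((((4 : ℤ) : K) * (cval a vs 4 + (-((((3 : ℤ) : K) * cval a vs 5)))))))) = 0 :=
    hP.rel vs (.add (.var 12) (.neg (.mul (.num 4) (.add (.var 4) (.neg (.mul (.num 3) (.var 5))))))) (by decide +kernel)
  have h0 : cval a vs 0 = a := by simp [cval, vs, ev]
  try rw [h0] at h
  try push_cast at h
  linear_combination h

theorem rg0 {K : Type} [Field K] [NumberField K] {a : K} {pl : List (Place K)} {ph : List (K →+* ℝ)}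
    {w : List (IsDedekindDomain.HeightOneSpectrum (NumberField.RingOfIntegers K))}
    (hP : Pack K FDQ5b a pl ph w) : cval a vs 6 = (((81 * ((((cval a vs 5) ^ 2)) ^ 2)) + (270 * (((cval a vs 4) ^ 2) * ((cval a vs 5) ^ 2)))) + (45 * ((((cval a vs 4) ^ 2)) ^ 2))) := by
  have h : (cval a vs 6 + (-((((((81 : ℤ) : K) * ((((cval a vs 5) ^ 2)) ^ 2)) + (((270 : ℤ) : K) * (((cval a vs 4) ^ 2) * ((cval a vs 5) ^ 2)))) + (((45 : ℤ) : K) * ((((cval a vs 4) ^ 2)) ^ 2)))))) = 0 :=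
    hP.rel vs (.add (.var 6) (.neg (.add (.add (.mul (.num 81) (.sq (.sq (.var 5)))) (.mul (.num 270) (.mul (.sq (.var 4)) (.sq (.var 5))))) (.mul (.num 45) (.sq (.sq (.var 4))))))) (by decide +kernel)
  have h0 : cval a vs 0 = a := by simp [cval, vs, ev]
  try rw [h0] at h
  try push_cast at h
  linear_combination h

theorem rg1 {K : Type} [Field K] [NumberField K] {a : K} {pl : List (Place K)} {ph : List (K →+* ℝ)}
    {w : List (IsDedekindDomain.HeightOneSpectrum (NumberField.RingOfIntegers K))}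
    (hP : Pack K FDQ5b a pl ph w) : cval a vs 7 = ((((((-324) * ((((cval a vs 5) ^ 2)) ^ 2)) + (648 * (((cval a vs 5) ^ 2) * (cval a vs 4 * cval a vs 5)))) + ((-1080) * (((cval a vs 4) ^ 2) * ((cval a vs 5) ^ 2)))) + (360 * (((cval a vs 4) ^ 2) * (cval a vs 4 * cval a vs 5)))) + ((-180) * ((((cval a vs 4) ^ 2)) ^ 2))) := by
  have h : (cval a vs 7 + (-((((((((-324 : ℤ) : K) * ((((cval a vs 5) ^ 2)) ^ 2)) + (((648 : ℤ) : K) * (((cval a vs 5) ^ 2) * (cval a vs 4 * cval a vs 5)))) + (((-1080 : ℤ) : K) * (((cval a vs 4) ^ 2) * ((cval a vs 5) ^ 2)))) + (((360 : ℤ) : K) * (((cval a vs 4) ^ 2) * (cval a vs 4 * cval a vs 5)))) + (((-180 : ℤ) : K) * ((((cval a vs 4) ^ 2)) ^ 2)))))) = 0 :=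
    hP.rel vs (.add (.var 7) (.neg (.add (.add (.add (.add (.mul (.num (-324)) (.sq (.sq (.var 5)))) (.mul (.num 648) (.mul (.sq (.var 5)) (.mul (.var 4) (.var 5))))) (.mul (.num (-1080)) (.mul (.sq (.var 4)) (.sq (.var 5))))) (.mul (.num 360) (.mul (.sq (.var 4)) (.mul (.var 4) (.var 5))))) (.mul (.num (-180)) (.sq (.sq (.var 4))))))) (by decide +kernel)
  have h0 : cval a vs 0 = a := by simp [cval, vs, ev]
  try rw [h0] at h
  try push_cast at h
  linear_combination h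

theorem rg2 {K : Type} [Field K] [NumberField K] {a : K} {pl : List (Place K)} {ph : List (K →+* ℝ)}
    {w : List (IsDedekindDomain.HeightOneSpectrum (NumberField.RingOfIntegers K))}
    (hP : Pack K FDQ5b a pl ph w) : cval a vs 8 = (((((756 * ((((cval a vs 5) ^ 2)) ^ 2)) + ((-1944) * (((cval a vs 5) ^ 2) * (cval a vs 4 * cval a vs 5)))) + (2304 * (((cval a vs 4) ^ 2) * ((cval a vs 5) ^ 2)))) + ((-1080) * (((cval a vs 4) ^ 2) * (cval a vs 4 * cval a vs 5)))) + (300 * ((((cval a vs 4) ^ 2)) ^ 2))) := by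
  have h : (cval a vs 8 + (-((((((((756 : ℤ) : K) * ((((cval a vs 5) ^ 2)) ^ 2)) + (((-1944 : ℤ) : K) * (((cval a vs 5) ^ 2) * (cval a vs 4 * cval a vs 5)))) + (((2304 : ℤ) : K) * (((cval a vs 4) ^ 2) * ((cval a vs 5) ^ 2)))) + (((-1080 : ℤ) : K) * (((cval a vs 4) ^ 2) * (cval a vs 4 * cval a vs 5)))) + (((300 : ℤ) : K) * ((((cval a vs 4) ^ 2)) ^ 2)))))) = 0 :=
    hP.rel vs (.add (.var 8) (.neg (.add (.add (.add (.add (.mul (.num 756) (.sq (.sq (.var 5)))) (.mul (.num (-1944)) (.mul (.sq (.var 5)) (.mul (.var 4) (.var 5))))) (.mul (.num 2304) (.mul (.sq (.var 4)) (.sq (.var 5))))) (.mul (.num (-1080)) (.mul (.sq (.var 4)) (.mul (.var 4) (.var 5))))) (.mul (.num 300) (.sq (.sq (.var 4))))))) (by decide +kernel)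
  have h0 : cval a vs 0 = a := by simp [cval, vs, ev]
  try rw [h0] at h
  try push_cast at h
  linear_combination h

theorem rg3 {K : Type} [Field K] [NumberField K] {a : K} {pl : List (Place K)} {ph : List (K →+* ℝ)}
    {w : List (IsDedekindDomain.HeightOneSpectrum (NumberField.RingOfIntegers K))}
    (hP : Pack K FDQ5b a pl ph w) : cval a vs 9 = ((((((-864) * ((((cval a vs 5) ^ 2)) ^ 2)) + (2304 * (((cval a vs 5) ^ 2) * (cval a vs 4 * cval a vs 5)))) + ((-2448) * (((cval a vs 4) ^ 2) * ((cval a vs 5) ^ 2)))) + (1152 * (((cval a vs 4) ^ 2) * (cval a vs 4 * cval a vs 5)))) + ((-240) * ((((cval a vs 4) ^ 2)) ^ 2))) := by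
  have h : (cval a vs 9 + (-((((((((-864 : ℤ) : K) * ((((cval a vs 5) ^ 2)) ^ 2)) + (((2304 : ℤ) : K) * (((cval a vs 5) ^ 2) * (cval a vs 4 * cval a vs 5)))) + (((-2448 : ℤ) : K) * (((cval a vs 4) ^ 2) * ((cval a vs 5) ^ 2)))) + (((1152 : ℤ) : K) * (((cval a vs 4) ^ 2) * (cval a vs 4 * cval a vs 5)))) + (((-240 : ℤ) : K) * ((((cval a vs 4) ^ 2)) ^ 2)))))) = 0 :=
    hP.rel vs (.add (.var 9) (.neg (.add (.add (.add (.add (.mul (.num (-864)) (.sq (.sq (.var 5)))) (.mul (.num 2304) (.mul (.sq (.var 5)) (.mul (.var 4) (.var 5))))) (.mul (.num (-2448)) (.mul (.sq (.var 4)) (.sq (.var 5))))) (.mul (.num 1152) (.mul (.sq (.var 4)) (.mul (.var 4) (.var 5))))) (.mul (.num (-240)) (.sq (.sq (.var 4))))))) (by decide +kernel)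
  have h0 : cval a vs 0 = a := by simp [cval, vs, ev]
  try rw [h0] at h
  try push_cast at h
  linear_combination h

theorem rg4 {K : Type} [Field K] [NumberField K] {a : K} {pl : List (Place K)} {ph : List (K →+* ℝ)}
    {w : List (IsDedekindDomain.HeightOneSpectrum (NumberField.RingOfIntegers K))}
    (hP : Pack K FDQ5b a pl ph w) : cval a vs 10 = (((((396 * ((((cval a vs 5) ^ 2)) ^ 2)) + ((-1008) * (((cval a vs 5) ^ 2) * (cval a vs 4 * cval a vs 5)))) + (984 * (((cval a vs 4) ^ 2) * ((cval a vs 5) ^ 2)))) + ((-432) * (((cval a vs 4) ^ 2) * (cval a vs 4 * cval a vs 5)))) + (76 * ((((cval a vs 4) ^ 2)) ^ 2))) := by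
  have h : (cval a vs 10 + (-((((((((396 : ℤ) : K) * ((((cval a vs 5) ^ 2)) ^ 2)) + (((-1008 : ℤ) : K) * (((cval a vs 5) ^ 2) * (cval a vs 4 * cval a vs 5)))) + (((984 : ℤ) : K) * (((cval a vs 4) ^ 2) * ((cval a vs 5) ^ 2)))) + (((-432 : ℤ) : K) * (((cval a vs 4) ^ 2) * (cval a vs 4 * cval a vs 5)))) + (((76 : ℤ) : K) * ((((cval a vs 4) ^ 2)) ^ 2)))))) = 0 :=
    hP.rel vs (.add (.var 10) (.neg (.add (.add (.add (.add (.mul (.num 396) (.sq (.sq (.var 5)))) (.mul (.num (-1008)) (.mul (.sq (.var 5)) (.mul (.var 4) (.var 5))))) (.mul (.num 984) (.mul (.sq (.var 4)) (.sq (.var 5))))) (.mul (.num (-432)) (.mul (.sq (.var 4)) (.mul (.var 4) (.var 5))))) (.mul (.num 76) (.sq (.sq (.var 4))))))) (by decide +kernel)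
  have h0 : cval a vs 0 = a := by simp [cval, vs, ev]
  try rw [h0] at h
  try push_cast at h
  linear_combination h

theorem core {K : Type} [Field K] [NumberField K] {a : K} {pl : List (Place K)} {ph : List (K →+* ℝ)}
    {w : List (IsDedekindDomain.HeightOneSpectrum (NumberField.RingOfIntegers K))}
    (hP : Pack K FDQ5b a pl ph w) {G : Prop} (u s y : K)
    (hdisc : Q2 0 (u - ((0 : ℤ) : K)))
    (hs : Q2 1 (s - ((1 : ℤ) : K)))
    (hy : Q2 0 (y - ((0 : ℤ) : K)))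
    (hsq : y ^ 2 = ((27 * (s * ((((s) ^ 2)) ^ 2))) + (u * (((-45) * ((((s) ^ 2)) ^ 2)) + (u * ((0 * (s * ((s) ^ 2))) + (u * ((60 * ((s) ^ 2)) + (u * (((-60) * s) + (u * 20)))))))))))
    (hcls : ∀ v : IsDedekindDomain.HeightOneSpectrum (NumberField.RingOfIntegers K), ((10 : ℕ) : NumberField.RingOfIntegers K) ∉ v.asIdeal →
      ∃ k : ℤ, v.valuation K ((((cval a vs 11 * s) + (u * cval a vs 12)) + (4 * y)) + ((cval a vs 6 * ((((s) ^ 2)) ^ 2)) + (u * ((cval a vs 7 * (s * ((s) ^ 2))) + (u * ((cval a vs 8 * ((s) ^ 2)) + (u * ((cval a vs 9 * s) + (u * cval a vs 10))))))))) = WithZero.exp (2 * k))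
    (hclsre : ∀ i ∈ [0], ∀ φ, ph[i]? = some φ → 0 < φ ((((cval a vs 11 * s) + (u * cval a vs 12)) + (4 * y)) + ((cval a vs 6 * ((((s) ^ 2)) ^ 2)) + (u * ((cval a vs 7 * (s * ((s) ^ 2))) + (u * ((cval a vs 8 * ((s) ^ 2)) + (u * ((cval a vs 9 * s) + (u * cval a vs 10)))))))))) :
    G := by
  refine hP.cover (fr := [u, s, y]) (M := M) (cs := [[], []]) rfl auto
    (l := [(0, 0)]) (by decide) ?_ hdisc fun tt kk hq => ?_
  · exact List.forall_mem_cons.2 ⟨⟨_, r0⟩, fun _ h => absurd h List.not_mem_nil⟩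
  · refine List.forall_mem_cons.2 ⟨?_, List.forall_mem_cons.2 ⟨?_, List.forall_mem_cons.2 ⟨?_, List.forall_mem_cons.2 ⟨?_, List.forall_mem_cons.2 ⟨?_, fun _ h => absurd h List.not_mem_nil⟩⟩⟩⟩⟩
    · exact hq
    · exact hs
    · exact hy
    · show y ^ 2 = ((((27 : ℤ) : K) * (s * ((((s) ^ 2)) ^ 2))) + (u * ((((-45 : ℤ) : K) * ((((s) ^ 2)) ^ 2)) + (u * ((((0 : ℤ) : K) * (s * ((s) ^ 2))) + (u * ((((60 : ℤ) : K) * ((s) ^ 2)) + (u * ((((-60 : ℤ) : K) * s) + (u * ((20 : ℤ) : K)))))))))))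
      try push_cast
      linear_combination hsq
    · exact fun h0 => hP.span_cut (nf := 3) (vs := vs) (x := ((((cval a vs 11 * s) + (u * cval a vs 12)) + (((4 : ℤ) : K) * y)) + ((cval a vs 6 * ((((s) ^ 2)) ^ 2)) + (u * ((cval a vs 7 * (s * ((s) ^ 2))) + (u * ((cval a vs 8 * ((s) ^ 2)) + (u * ((cval a vs 9 * s) + (u * cval a vs 10)))))))))) (fr := [u, s, y]) rfl k0 (by decide +kernel) h0 ((by push_cast; ring : ((((cval a vs 11 * s) + (u * cval a vs 12)) + (((4 : ℤ) : K) * y)) + ((cval a vs 6 * ((((s) ^ 2)) ^ 2)) + (u * ((cval a vs 7 * (s * ((s) ^ 2))) + (u * ((cval a vs 8 * ((s) ^ 2)) + (u * ((cval a vs 9 * s) + (u * cval a vs 10))))))))) = ((((cval a vs 11 * s) + (u * cval a vs 12)) + (4 * y)) + ((cval a vs 6 * ((((s) ^ 2)) ^ 2)) + (u * ((cval a vs 7 * (s * ((s) ^ 2))) + (u * ((cval a vs 8 * ((s) ^ 2)) + (u * ((cval a vs 9 * s) + (u * cval a vs 10)))))))))) ▸ hcls) ((by push_cast; ring : ((((cval a vs 11 * s) +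 (u * cval a vs 12)) + (((4 : ℤ) : K) * y)) + ((cval a vs 6 * ((((s) ^ 2)) ^ 2)) + (u * ((cval a vs 7 * (s * ((s) ^ 2))) + (u * ((cval a vs 8 * ((s) ^ 2)) + (u * ((cval a vs 9 * s) + (u * cval a vs 10))))))))) = ((((cval a vs 11 * s) + (u * cval a vs 12)) + (4 * y)) + ((cval a vs 6 * ((((s) ^ 2)) ^ 2)) + (u * ((cval a vs 7 * (s * ((s) ^ 2))) + (u * ((cval a vs 8 * ((s) ^ 2)) + (u * ((cval a vs 9 * s) + (u * cval a vs 10)))))))))) ▸ hclsre) (fun _ h => absurd h List.not_mem_nil)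

open IsDedekindDomain NumberField in
/-- the class of the auxiliary quantity -/
theorem lev3 {K : Type} [Field K] [NumberField K] {A B X : K} {e0 e1 u v y : ℤ} (ψ : K →+* ℝ)
    (hA : ∀ v : HeightOneSpectrum (𝓞 K), ((10 : ℕ) : 𝓞 K) ∉ v.asIdeal → v.valuation K A ≤ 1)
    (hn : A ^ 2 - 3 * B ^ 2 = 1)
    (h0 : A ^ 5 + 30 * A ^ 3 * B ^ 2 + 45 * A * B ^ 4 = e0)
    (h1 : 5 * A ^ 4 * B + 30 * A ^ 2 * B ^ 3 + 9 * B ^ 5 = e1)
    (huv : IsCoprime u v) (h3 : ¬ 3 ∣ y) (hy0 : 0 ≤ y)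
    (hy : y ^ 2 = e0 * re5 3 u v + 3 * e1 * im5 3 u v)
    (hX : X = 4 * (u * A + 3 * v * B) + 4 * y + Q5.G4 3 (u * A + 3 * v * B) (u * B + v * A)) :
    (∀ p : HeightOneSpectrum (𝓞 K), ((10 : ℕ) : 𝓞 K) ∉ p.asIdeal →
      ∃ k : ℤ, p.valuation K X = WithZero.exp (2 * k)) ∧ ∀ φ : K →+* ℝ, 0 < φ X := by
  have y0 : y ≠ 0 := fun q => h3 (by simp [q])
  have e := Q5.fac (A := A) (B := B) (d := 3) (e0 := e0) (e1 := e1) u v
    (by push_cast; linear_combination h0) (by push_cast; linear_combination h1)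
  rw [← hy, Int.cast_pow] at e
  have hc := Q5.G4_cls (n := 1) hA (by push_cast; exact hn) (one_pow 2)
    (Or.inr (R13.cop_prime Int.prime_three h3).symm) huv y0 e
  have g0 : Q5.G4 ((3 : ℤ) : K) (u * A + (3 : ℤ) * v * B) (u * B + v * A) ≠ 0 := fun q =>
    pow_ne_zero 2 (Int.cast_ne_zero.2 y0) (by rw [e, q, mul_zero])
  have gp := Q5.G4_pos (by norm_num) g0
  have hm := Q5.X_mul 2 e
  rw [Int.cast_ofNat] at hm hc gp
  rw [show (2 : K) ^ 2 * (u * A + 3 * v * B) + 2 * 2 * y +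
    Q5.G4 3 (u * A + 3 * v * B) (u * B + v * A) = X by rw [hX]; ring] at hm
  have r1 : 2 * (y : K) + Q5.G4 3 (u * A + 3 * v * B) (u * B + v * A) ≠ 0 := fun q => by
    have q1 := congrArg ψ q
    have q2 := gp ψ
    have q3 : (0 : ℝ) ≤ y := by exact_mod_cast hy0
    rw [map_add, map_mul, map_intCast, map_ofNat, map_zero] at q1
    linarith
  exact ⟨fun p hp => Q5.X_even hm r1 (hc p hp), fun φ => Q5.X_pos hm r1 φ (gp φ)⟩

theorem bb0 {K : Type} [Field K] [NumberField K] {a : K} {pl : List (Place K)}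
    {ph : List (K →+* ℝ)}
    {w : List (IsDedekindDomain.HeightOneSpectrum (NumberField.RingOfIntegers K))}
    (hP : Pack K FDQ5b a pl ph w) : BB81 := by
  intro u v y huv ho h3 hy
  obtain ⟨ψ, -⟩ := List.forall₂_cons_right_iff.1 hP.re
  have hy' : |y| ^ 2 = 2 * re5 3 u v + 3 * 1 * im5 3 u v := by rw [sq_abs, hy]; ring
  have hl := fun X => B81.lev3 (A := cval a vs 4) (B := cval a vs 5) (X := X) ψ
    (hP.cint vs 4 1 (by decide)) (by linear_combination rn hP)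
    (by push_cast; linear_combination r0' hP) (by push_cast; linear_combination r1 hP) huv
    (by rwa [dvd_abs]) (abs_nonneg y) hy'
  have hq := congrArg (Int.cast : ℤ → K) hy'
  refine core hP (u : K) ((u + v : ℤ) : K) ((|y| : ℤ) : K) ⟨u, 1, odd_one, by simp⟩ (q2_unit ho)
    ⟨|y|, 1, odd_one, by simp⟩ ?_ (hl _ ?_).1 fun _ _ φ _ => (hl _ ?_).2 φ
  · generalize |y| = z at hq
    simp only [re5, im5] at hq
    push_cast at hq ⊢
    linear_combination hq
  all_goals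
    rw [ra0 hP, ra1 hP, rg0 hP, rg1 hP, rg2 hP, rg3 hP, rg4 hP, Q5.G4, Int.cast_add]
    ring

theorem bb : BB81 := by
  obtain ⟨pl, ph, w, hP⟩ := P.Q5b.pack
  exact bb0 hP

end Pool.Agent.Lib.MP_ab8df0_nt.T.B81
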